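import Mathlib
import Pool.Agent.Helper16.QP2.Hom
import Pool.Agent.Helper97.SIX.Final

/-!
Points of degree at most two over `k` in the projective plane, and a divisor `D` of six lines in general
position.

Points are given by homogeneous coordinates in the algebraic closure of `k`, one of which is `1`. `D` is the
sum of the lines `ℓ i = 0`, where the `ℓ i` are linear forms with coefficients in `k`, any three of which are
linearly independent. `Pl`, `nv`, `sn` (in `Pool/Agent/Helper64/Vojta/Places.lean`) are the places, the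
normalised absolute values and the maximum of the absolute values of the coordinates, `above` (in
`OneSpace.lean`) the set of places above a place.
-/

namespace Pool.Agent.Helper16.QP3.SixLines

open NumberField IntermediateField Pool.Agent.Helper64.Vojta Matrix

universe u

section

variable {k : Type u} [Field k] [NumberField k] {N : ℕ}

/-- The field generated over `k` by the coordinates of the point. If one of them is `1`, this is the
residue field of the point. -/
noncomputable def fld (x : Fin N → AlgebraicClosure k) : IntermediateField k (AlgebraicClosure k) :=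
  adjoin k (Set.range x)

/-- It is a number field. -/
instance numberField_fld (x : Fin N → AlgebraicClosure k) : NumberField (fld x) := by
  have : FiniteDimensional k (fld x) :=
    finiteDimensional_adjoin fun x _ => Algebra.IsIntegral.isIntegral x
  have h0 : CharZero (fld x) := charZero_of_injective_algebraMap (algebraMap k (fld x)).injective
  have h1 : FiniteDimensional ℚ (fld x) := Module.Finite.trans k (fld x)
  exact { to_charZero := h0, to_finiteDimensional := h1 }

/-- The degree of the point over `k`. -/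
noncomputable def dg (x : Fin N → AlgebraicClosure k) : ℕ := Module.finrank k (fld x)

/-- The coordinates as elements of the residue field. -/
noncomputable def crd (x : Fin N → AlgebraicClosure k) : Fin N → fld x :=
  fun i => ⟨x i, subset_adjoin k _ (Set.mem_range_self i)⟩

/-- The value of the linear form `ℓ` at the point. -/
noncomputable def val (ℓ : Fin N → k) (x : Fin N → AlgebraicClosure k) : fld x :=
  ∑ j, algebraMap k (fld x) (ℓ j) * crd x j

/-- Logarithmic height, relative to `k`; `Height.logHeight` is Mathlib's height relative to the field of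
the coordinates. -/
noncomputable def hgt (x : Fin N → AlgebraicClosure k) : ℝ := Height.logHeight (crd x) / dg x

/-- The Weil function, relative to `k`, of the hyperplane `ℓ = 0` at the place `ν` of `k`. -/
noncomputable def lam (ℓ : Fin N → k) (ν : Pl k) (x : Fin N → AlgebraicClosure k) : ℝ :=
  (∑ w ∈ above (fld x) ν, (Real.log (sn w (crd x)) - Real.log (nv w (val ℓ x)))) / dg x

/-- `∑_{ν ∈ S} λ_D(x,ν)` for the divisor `D` which is the sum of the lines `ℓ i = 0`. -/
noncomputable def prox (S : Finset (Pl k)) (ℓ : Fin 6 → Fin 3 → k) (x : Fin 3 → AlgebraicClosure k) : ℝ :=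
  ∑ ν ∈ S, ∑ i, lam (ℓ i) ν x

/-- `x` is a point of degree at most two outside the lines `ℓ i = 0` (one of its coordinates is `1`). -/
def IsPoint (ℓ : Fin 6 → Fin 3 → k) (x : Fin 3 → AlgebraicClosure k) : Prop :=
  (∃ j, x j = 1) ∧ dg x ≤ 2 ∧ ∀ i, val (ℓ i) x ≠ 0

/-- Any three of the lines `ℓ i = 0` have no common point. -/
def GenPos (ℓ : Fin 6 → Fin 3 → k) : Prop :=
  ∀ i j m : Fin 6, i ≠ j → i ≠ m → j ≠ m → LinearIndependent k ![ℓ i, ℓ j, ℓ m]

/-- `x` is on none of the (finitely many) lines `m = 0` through two of the points `ℓ i = ℓ j = 0` with four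
different indices. -/
def OffPairs (ℓ : Fin 6 → Fin 3 → k) (x : Fin 3 → AlgebraicClosure k) : Prop :=
  ∀ m : Fin 3 → k, m ≠ 0 → ∀ t : Fin 4 → Fin 6, Function.Injective t →
    m ∈ Submodule.span k {ℓ (t 0), ℓ (t 1)} → m ∈ Submodule.span k {ℓ (t 2), ℓ (t 3)} → val m x ≠ 0

/-- The conic with the matrix `M` touches the line `a = 0` at its common point with the line `b = 0`. -/
def Touches (M : Matrix (Fin 3) (Fin 3) k) (a b : Fin 3 → k) : Prop :=
  ∃ c : k, M *ᵥ crossProduct a b = c • a

/-- `x` is on none of the (finitely many) smooth conics, with matrix `M`, which touch four of the lines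
`ℓ i = 0`, two of them at points of a fifth and two at points of a sixth of these lines. -/
def OffConics (ℓ : Fin 6 → Fin 3 → k) (x : Fin 3 → AlgebraicClosure k) : Prop :=
  ∀ M : Matrix (Fin 3) (Fin 3) k, Mᵀ = M → M.det ≠ 0 → ∀ t : Fin 6 → Fin 6, Function.Injective t →
    Touches M (ℓ (t 0)) (ℓ (t 4)) → Touches M (ℓ (t 1)) (ℓ (t 4)) → Touches M (ℓ (t 2)) (ℓ (t 5)) →
    Touches M (ℓ (t 3)) (ℓ (t 5)) → ∑ a, ∑ b, algebraMap k (AlgebraicClosure k) (M a b) * x a * x b ≠ 0

/-- The lines `ℓ i = 0` are tangent to one conic: `M` is the matrix of the dual conic. -/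
def Tangents (ℓ : Fin 6 → Fin 3 → k) : Prop :=
  ∃ M : Matrix (Fin 3) (Fin 3) k, Mᵀ = M ∧ M ≠ 0 ∧ ∀ i, ℓ i ⬝ᵥ M *ᵥ ℓ i = 0

/-- A projective involution of the plane over `k` exchanges the lines `ℓ i = 0` in pairs: the substitution
with matrix `M`, `M² = 1`, maps each linear form `ℓ i` to a multiple of `ℓ (π i)`, where `π` is an
involution of the indices without fixed points. -/
def Exchanged (ℓ : Fin 6 → Fin 3 → k) : Prop :=
  ∃ (M : Matrix (Fin 3) (Fin 3) k) (π : Fin 6 → Fin 6), M * M = 1 ∧
    ∀ i, π i ≠ i ∧ π (π i) = i ∧ ∃ c : k, M *ᵥ ℓ i = c • ℓ (π i)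

end

/-- There is an absolute constant `δ > 0` such that for every number field `k`, every divisor `D` which is the
sum of six lines `ℓ i = 0` of the plane, any three of which are linearly independent, and every finite `S`
(points are points outside `D` of degree at most two over `k`):

1. if the lines are not tangent to one conic, there is a `C` such that
`∑_{ν ∈ S} λ_D(x,ν) ≤ (6 - δ) h(x) + C` for all points `x` which are on none of the (finitely many) lines
through two of the points `ℓ i = ℓ j = 0` with four different indices, and on none of the (finitely many)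
smooth conics which touch four of the lines at points lying two by two on the other two lines;
2. if no projective involution exchanges the lines in pairs, then for every `C` the points with
`∑_{ν ∈ S} λ_D(x,ν) ≥ 6 h(x) - C` lie on a curve `P = 0`. -/
theorem result : ∃ δ : ℝ, 0 < δ ∧ ∀ (k : Type u) [Field k] [NumberField k] (ℓ : Fin 6 → Fin 3 → k),
    GenPos ℓ → ∀ S : Finset (Pl k),
      (¬ Tangents ℓ → ∃ C : ℝ, ∀ x : Fin 3 → AlgebraicClosure k, IsPoint ℓ x → OffPairs ℓ x →
        OffConics ℓ x → prox S ℓ x ≤ (6 - δ) * hgt x + C) ∧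
      (¬ Exchanged ℓ → ∀ C : ℝ, ∃ P : MvPolynomial (Fin 3) k, P ≠ 0 ∧ (∃ d, P.IsHomogeneous d) ∧
        ∀ x : Fin 3 → AlgebraicClosure k, IsPoint ℓ x → 6 * hgt x - C ≤ prox S ℓ x → MvPolynomial.aeval x P = 0) := by
  obtain ⟨δ, hδ, hB⟩ := Pool.Agent.QP2.proj6 Pool.Agent.SIX.affine
  refine ⟨δ, hδ, fun k _ _ ℓ hℓ S => ⟨?_, ?_⟩⟩
  · intro hT
    obtain ⟨C, hC⟩ := hB k ℓ hℓ hT S
    refine ⟨C, fun x hx hm hM => hC x hx.1 hx.2.1 hx.2.2 hm fun M h1 h2 t ht h3 h4 h5 h6 => ?_⟩
    refine hM M h1 h2 ![t 0, t 4, t 1, t 5, t 2, t 3] ?_ h3 h5 h4 h6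
    have h7 : (![t 0, t 4, t 1, t 5, t 2, t 3] : Fin 6 → Fin 6) = t ∘ ![0, 4, 1, 5, 2, 3] := by
      funext i
      fin_cases i <;> rfl
    rw [h7]
    exact ht.comp (by decide)
  · intro hE C
    obtain ⟨P, h1, h2, h3⟩ := Pool.Agent.QP2.projC S le_rfl ℓ hℓ (fun _ => hE) C
    exact ⟨P, h1, h2, fun x hx h4 => h3 x hx.1 hx.2.1 hx.2.2 (by exact_mod_cast h4)⟩

end Pool.Agent.Helper16.QP3.SixLines
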